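import Pool.Agent.Lib.MP_bd8d5e_al.Limit
import Pool.Agent.Lib.MP_bd8d5e_al.Step
import Pool.Agent.Lib.MP_bd8d5e_al.Relators
import Pool.Agent.Lib.MP_bd8d5e_al.BaseGroup

/-!
# There is a simple `T₀`-group

The definitions are those of the problem file: conjugate subgroups `H ^ g = g⁻¹ H g`, the periodic
part of a subgroup, Frobenius groups, `T₀`-groups.
-/

set_option autoImplicit false

namespace Pool.Agent.Results.MP_bd8d5e_al.SimpleT0

/-- the conjugate subgroup `H ^ g = g⁻¹ H g` -/
def conjBy {G : Type*} [Group G] (H : Subgroup G) (g : G) : Subgroup G :=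
  H.comap (MulAut.conj g).toMonoidHom

/-- the periodic part of a subgroup `X`: the set of its elements of finite order -/
def periodicPart {G : Type*} [Group G] (X : Subgroup G) : Set G := {x | x ∈ X ∧ IsOfFinOrder x}

/-- `P` is a Frobenius group with kernel `F` and complement `H` -/
structure IsFrobenius {P : Type*} [Group P] (F H : Subgroup P) : Prop where
  ne_bot : H ≠ ⊥
  ne_top : H ≠ ⊤
  malnormal : ∀ g : P, g ∉ H → H ⊓ conjBy H g = ⊥
  kernel : (F : Set P) = (Set.univ \ ⋃ g : P, (conjBy H g : Set P)) ∪ {1}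
  normal : F.Normal
  prod : ∀ x : P, ∃ f ∈ F, ∃ h ∈ H, x = f * h
  inter : F ⊓ H = ⊥

/-- `G` is a `T₀`-group with respect to `i`; here `C = Subgroup.centralizer {i}` -/
structure IsT0 (G : Type*) [Group G] (i : G) : Prop where
  /-- `i` is an involution -/
  invol : orderOf i = 2
  /-- (1) the product of two conjugates of `i` has finite order -/
  prod : ∀ j k : G, IsConj i j → IsConj i k → IsOfFinOrder (j * k)
  /-- (2) every `2`-subgroup is cyclic or generalised quaternion (of order `2 ^ (n + 2)`) -/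
  two : ∀ P : Subgroup G, IsPGroup 2 P →
    IsCyclic P ∨ ∃ n : ℕ, 1 ≤ n ∧ Nonempty (P ≃* QuaternionGroup (2 ^ n))
  /-- (3) `C` is infinite, -/
  infinite : Infinite (Subgroup.centralizer {i})
  /-- `C ≠ G`, -/
  ne_top : Subgroup.centralizer {i} ≠ ⊤
  /-- and the periodic part of `C` is finite -/
  periodic : (periodicPart (Subgroup.centralizer {i})).Finite
  /-- (4) for each nontrivial finite `i`-invariant subgroup `K` either `N_G(K) ≤ C`, or the periodic
  part of `N_G(K)` is a Frobenius group with abelian kernel and finite complement of even order -/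
  normalizer : ∀ K : Subgroup G, K ≠ ⊥ → Finite K → conjBy K i = K →
    Subgroup.normalizer (K : Set G) ≤ Subgroup.centralizer {i} ∨
      ∃ P : Subgroup G, (P : Set G) = periodicPart (Subgroup.normalizer (K : Set G)) ∧
        ∃ F H : Subgroup P, IsFrobenius F H ∧ (∀ x ∈ F, ∀ y ∈ F, x * y = y * x) ∧
          Finite H ∧ Even (Nat.card H)
  /-- (5) if `c ∉ C` and `c i` is an involution, then `⟨c, c ^ s⟩` is infinite for some `s ∈ C` -/
  gen : ∀ c : G, c ∉ Subgroup.centralizer {i} → orderOf (c * i) = 2 →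
    ∃ s ∈ Subgroup.centralizer {i}, Infinite (Subgroup.closure {c, s⁻¹ * c * s})

/-- `T₀`-groups -/
def IsT0Group (G : Type*) [Group G] : Prop := ∃ i : G, IsT0 G i

open Pool.Agent.Lib

theorem frob_of {P : Type*} [Group P] {F H : Subgroup P} (h : MP_bd8d5e_al.IsFrobenius F H) :
    IsFrobenius F H :=
  ⟨h.ne_bot, h.ne_top, h.malnormal, h.kernel, h.normal, h.prod, h.inter⟩

theorem t0_of {G : Type*} [Group G] (h : MP_bd8d5e_al.IsT0Group G) : IsT0Group G := by
  obtain ⟨i, h⟩ := h
  refine ⟨i, h.invol, h.prod, h.two, h.infinite, h.ne_top, h.periodic, ?_, h.gen⟩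
  intro K h1 h2 h3
  rcases h.normalizer K h1 h2 h3 with h4 | ⟨P, hP, F, H, h5, h6, h7, h8⟩
  · exact Or.inl h4
  · exact Or.inr ⟨P, hP, F, H, frob_of h5, h6, h7, h8⟩

/-- there is a simple `T₀`-group -/
theorem result : ∃ (G : Type) (_ : Group G), IsSimpleGroup G ∧ IsT0Group G := by
  obtain ⟨G, hG, h1, h2⟩ := MP_bd8d5e_al.exists_simple_T0_of
    (fun G _ hG v hv hcom P hP => MP_bd8d5e_al.step hG hv hcom P hP)
    (fun G _ hG j k hj hj2 hk hk2 hv => MP_bd8d5e_al.relator_one hG hj hj2 hk hk2 hv)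
    (fun G _ hG i j f hi hi2 hj hj2 hij hf hfi =>
      MP_bd8d5e_al.relator_two hG hi hi2 hj hj2 hij hf hfi)
    MP_bd8d5e_al.exists_base
  exact ⟨G, hG, h1, t0_of h2⟩

end Pool.Agent.Results.MP_bd8d5e_al.SimpleT0
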